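import Pool.Agent.Helper60.RR.Defs

set_option autoImplicit false
set_option linter.unusedSectionVars false

open MeasureTheory Filter Topology
open scoped ENNReal

namespace Pool.Agent.Helper60.RR
namespace Act

variable {Ω : Type*} [MeasurableSpace Ω] {E : Type*} [NormedAddCommGroup E] [NormedSpace ℝ E]

section beta
variable (R : Act Ω E)

/-- the real-bilinear form `psi (a D (b f))`. -/
noncomputable def beta (D : E →L[ℝ] E) (f : E) (ψ : E →L[ℝ] ℝ) (a b : Ω → ℝ) : ℝ :=
  ψ (R.M a (D (R.M b f)))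

variable {D : E →L[ℝ] E} {f : E} {ψ : E →L[ℝ] ℝ}

lemma beta_add_left {a a' b : Ω → ℝ} (ha : BM a) (ha' : BM a') :
    R.beta D f ψ (a + a') b = R.beta D f ψ a b + R.beta D f ψ a' b := by
  rw [beta, R.add ha ha', _root_.add_apply, map_add]; rfl

lemma beta_add_right {a b b' : Ω → ℝ} (hb : BM b) (hb' : BM b') :
    R.beta D f ψ a (b + b') = R.beta D f ψ a b + R.beta D f ψ a b' := by
  rw [beta, R.add hb hb', _root_.add_apply, map_add, map_add, map_add]; rfl

lemma beta_smul_left {a b : Ω → ℝ} (c : ℝ) (ha : BM a) :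
    R.beta D f ψ (c • a) b = c * R.beta D f ψ a b := by
  rw [beta, R.smul c ha, _root_.smul_apply, map_smul]; rfl

lemma beta_smul_right {a b : Ω → ℝ} (c : ℝ) (hb : BM b) :
    R.beta D f ψ a (c • b) = c * R.beta D f ψ a b := by
  rw [beta, R.smul c hb, _root_.smul_apply, map_smul, map_smul, map_smul]; rfl

lemma norm_M_unimod_le {u : Ω → ℝ} (hu : Measurable u) (h1 : ∀ ω, ‖u ω‖ = 1) (g : E) :
    ‖R.M u g‖ ≤ ‖g‖ := by
  have := R.norm_le (a := u) (C := 1) ⟨hu, 1, fun ω => (h1 ω).le⟩ (fun ω => (h1 ω).le) zero_le_one g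
  simpa using this

lemma mul_self_unimod {u : Ω → ℝ} (h1 : ∀ ω, ‖u ω‖ = 1) : u * u = 1 := by
  ext ω
  have := h1 ω
  rw [Real.norm_eq_abs] at this
  rw [Pi.mul_apply, Pi.one_apply, ← abs_mul_abs_self, this, mul_one]

lemma beta_unimod (hD : Skew D) (hψ : Norming f ψ) {u : Ω → ℝ} (hu : Measurable u)
    (h1 : ∀ ω, ‖u ω‖ = 1) : R.beta D f ψ u u = 0 := by
  have hb : BM u := ⟨hu, 1, fun ω => (h1 ω).le⟩
  have h2 := hD.conj (R.M u) (R.M u) (R.norm_M_unimod_le hu h1) (R.norm_M_unimod_le hu h1)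
    (fun g => by rw [← R.mul hb hb, mul_self_unimod h1, R.one])
  exact h2 f ψ hψ

/-- antisymmetry for indicators -/
lemma anti_ind (hD : Skew D) (hψ : Norming f ψ) {A B : Set Ω} (hA : MeasurableSet A)
    (hB : MeasurableSet B) (hAB : Disjoint A B) :
    R.beta D f ψ (A.indicator 1) (B.indicator 1) + R.beta D f ψ (B.indicator 1) (A.indicator 1)
      = 0 := by
  have hbp : BM (A.indicator (1 : Ω → ℝ)) := bmInd hA
  have hbq : BM (B.indicator (1 : Ω → ℝ)) := bmInd hB
  have hbc : BM ((A ∪ B)ᶜ.indicator (1 : Ω → ℝ)) := bmInd (hA.union hB).compl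
  have key : ∀ s t : ℝ, |s| = 1 → |t| = 1 →
      R.beta D f ψ (A.indicator 1 + (s • B.indicator 1 + t • (A ∪ B)ᶜ.indicator (1 : Ω → ℝ)))
        (A.indicator 1 + (s • B.indicator 1 + t • (A ∪ B)ᶜ.indicator (1 : Ω → ℝ))) = 0 := by
    intro s t hs ht
    have hb : BM (A.indicator 1 + (s • B.indicator 1 + t • (A ∪ B)ᶜ.indicator (1 : Ω → ℝ))) :=
      hbp.add ((hbq.smul s).add (hbc.smul t))
    refine R.beta_unimod hD hψ hb.1 (fun ω => ?_)
    by_cases h1 : ω ∈ A
    · have h2 : ω ∉ B := fun h => (Set.disjoint_left.mp hAB h1) h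
      simp [h1, h2]
    · by_cases h2 : ω ∈ B
      · simp [h1, h2, hs]
      · simp [h1, h2, ht]
  have expand : ∀ s t : ℝ,
      R.beta D f ψ (A.indicator 1 + (s • B.indicator 1 + t • (A ∪ B)ᶜ.indicator (1 : Ω → ℝ)))
        (A.indicator 1 + (s • B.indicator 1 + t • (A ∪ B)ᶜ.indicator (1 : Ω → ℝ)))
      = R.beta D f ψ (A.indicator 1) (A.indicator 1)
        + s * (R.beta D f ψ (A.indicator 1) (B.indicator 1)
              + R.beta D f ψ (B.indicator 1) (A.indicator 1))
        + t * (R.beta D f ψ (A.indicator 1) ((A ∪ B)ᶜ.indicator 1)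
              + R.beta D f ψ ((A ∪ B)ᶜ.indicator 1) (A.indicator 1))
        + s * t * (R.beta D f ψ (B.indicator 1) ((A ∪ B)ᶜ.indicator 1)
              + R.beta D f ψ ((A ∪ B)ᶜ.indicator 1) (B.indicator 1))
        + s ^ 2 * R.beta D f ψ (B.indicator 1) (B.indicator 1)
        + t ^ 2 * R.beta D f ψ ((A ∪ B)ᶜ.indicator 1) ((A ∪ B)ᶜ.indicator 1) := by
    intro s t
    rw [R.beta_add_left hbp ((hbq.smul s).add (hbc.smul t)),
      R.beta_add_left (hbq.smul s) (hbc.smul t),
      R.beta_add_right hbp ((hbq.smul s).add (hbc.smul t)),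
      R.beta_add_right (hbq.smul s) (hbc.smul t),
      R.beta_add_right hbp ((hbq.smul s).add (hbc.smul t)),
      R.beta_add_right (hbq.smul s) (hbc.smul t),
      R.beta_add_right hbp ((hbq.smul s).add (hbc.smul t)),
      R.beta_add_right (hbq.smul s) (hbc.smul t)]
    simp only [R.beta_smul_left _ hbq, R.beta_smul_left _ hbc, R.beta_smul_right _ hbq,
      R.beta_smul_right _ hbc]
    ring
  have h1 := key 1 1 (by simp) (by simp)
  have h2 := key 1 (-1) (by simp) (by simp)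
  have h3 := key (-1) 1 (by simp) (by simp)
  have h4 := key (-1) (-1) (by simp) (by simp)
  rw [expand] at h1 h2 h3 h4
  linarith

/-- bound -/
lemma abs_beta_le {a b : Ω → ℝ} {C C' : ℝ} (ha : BM a) (hb : BM b) (hC0 : 0 ≤ C) (hC0' : 0 ≤ C')
    (hC : ∀ ω, ‖a ω‖ ≤ C) (hC' : ∀ ω, ‖b ω‖ ≤ C') :
    |R.beta D f ψ a b| ≤ ‖ψ‖ * (C * (‖D‖ * (C' * ‖f‖))) := by
  refine (ψ.le_opNorm _).trans (mul_le_mul_of_nonneg_left ?_ (norm_nonneg _))
  refine (R.norm_le ha hC hC0 _).trans (mul_le_mul_of_nonneg_left ?_ hC0)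
  refine (D.le_opNorm _).trans (mul_le_mul_of_nonneg_left ?_ (norm_nonneg _))
  exact R.norm_le hb hC' hC0' _

end beta

variable {R : Act Ω E}

lemma ind_add (A : Set Ω) (a b : Ω → ℝ) : A.indicator (a + b) = A.indicator a + A.indicator b :=
  Set.indicator_add' A a b

lemma ind_smul (A : Set Ω) (c : ℝ) (a : Ω → ℝ) : A.indicator (c • a) = c • A.indicator a := by
  ext ω; by_cases h : ω ∈ A <;> simp [h]

lemma ind_bd (A : Set Ω) {a : Ω → ℝ} {C : ℝ} (hC : ∀ ω, ‖a ω‖ ≤ C) (ω : Ω) :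
    ‖A.indicator a ω‖ ≤ C :=
  (norm_indicator_le_norm_self _ _).trans (hC ω)

/-- C1 antisymmetry for a norming pair -/
theorem anti {D : E →L[ℝ] E} {f : E} {ψ : E →L[ℝ] ℝ} (hD : Skew D) (hψ : Norming f ψ)
    {A B : Set Ω} (hA : MeasurableSet A) (hB : MeasurableSet B) (hAB : Disjoint A B)
    {a b : Ω → ℝ} (ha : BM a) (hb : BM b) :
    ψ (R.M (A.indicator a) (D (R.M (B.indicator b) f)))
      + ψ (R.M (B.indicator b) (D (R.M (A.indicator a) f))) = 0 := by
  change R.beta D f ψ (A.indicator a) (B.indicator b)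
    + R.beta D f ψ (B.indicator b) (A.indicator a) = 0
  -- first step: indicator on the right
  have step : ∀ (C : Set Ω), MeasurableSet C → ∀ a : Ω → ℝ, BM a →
      R.beta D f ψ (A.indicator a) (B.indicator (C.indicator 1))
        + R.beta D f ψ (B.indicator (C.indicator 1)) (A.indicator a) = 0 := by
    intro C hC a ha
    have hbC : BM (B.indicator (C.indicator (1 : Ω → ℝ))) := (bmInd hC).indicator hB
    refine eq_zero_of_ind (fun a => R.beta D f ψ (A.indicator a) (B.indicator (C.indicator 1))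
        + R.beta D f ψ (B.indicator (C.indicator 1)) (A.indicator a))
      (2 * (‖ψ‖ * (‖D‖ * ‖f‖))) ?_ ?_ ?_ ?_ ha
    · intro a b ha hb
      rw [ind_add, R.beta_add_left (ha.indicator hA) (hb.indicator hA),
        R.beta_add_right (ha.indicator hA) (hb.indicator hA)]
      ring
    · intro c a ha
      rw [ind_smul, R.beta_smul_left _ (ha.indicator hA), R.beta_smul_right _ (ha.indicator hA)]
      ring
    · intro a K ha hK0 hK
      have h1 : ∀ ω, ‖B.indicator (C.indicator (1 : Ω → ℝ)) ω‖ ≤ 1 := by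
        intro ω
        refine ind_bd B (fun ω => ?_) ω
        exact ind_bd C (fun ω => by simp) ω
      have e1 := R.abs_beta_le (D := D) (f := f) (ψ := ψ) (ha.indicator hA) hbC hK0 zero_le_one
        (ind_bd A hK) h1
      have e2 := R.abs_beta_le (D := D) (f := f) (ψ := ψ) hbC (ha.indicator hA) zero_le_one hK0
        h1 (ind_bd A hK)
      refine (abs_add_le _ _).trans ((add_le_add e1 e2).trans (le_of_eq ?_))
      ring
    · intro A' hA'
      have e1 : A.indicator (A'.indicator (1 : Ω → ℝ)) = (A ∩ A').indicator 1 := by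
        rw [Set.indicator_indicator]
      have e2 : B.indicator (C.indicator (1 : Ω → ℝ)) = (B ∩ C).indicator 1 := by
        rw [Set.indicator_indicator]
      rw [e1, e2]
      exact R.anti_ind hD hψ (hA.inter hA') (hB.inter hC)
        (hAB.mono Set.inter_subset_left Set.inter_subset_left)
  obtain ⟨K, hK0, hK⟩ : ∃ K : ℝ, 0 ≤ K ∧ ∀ ω, ‖a ω‖ ≤ K := by
    obtain ⟨-, K, hK⟩ := ha
    exact ⟨|K|, abs_nonneg _, fun ω => (hK ω).trans (le_abs_self K)⟩
  refine eq_zero_of_ind (fun b => R.beta D f ψ (A.indicator a) (B.indicator b)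
        + R.beta D f ψ (B.indicator b) (A.indicator a))
      (2 * (‖ψ‖ * (K * (‖D‖ * ‖f‖)))) ?_ ?_ ?_ ?_ hb
  · intro b b' hb hb'
    rw [ind_add, R.beta_add_left (hb.indicator hB) (hb'.indicator hB),
      R.beta_add_right (hb.indicator hB) (hb'.indicator hB)]
    ring
  · intro c b hb
    rw [ind_smul, R.beta_smul_left _ (hb.indicator hB), R.beta_smul_right _ (hb.indicator hB)]
    ring
  · intro b K' hb hK0' hK'
    have e1 := R.abs_beta_le (D := D) (f := f) (ψ := ψ) (ha.indicator hA) (hb.indicator hB) hK0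
      hK0' (ind_bd A hK) (ind_bd B hK')
    have e2 := R.abs_beta_le (D := D) (f := f) (ψ := ψ) (hb.indicator hB) (ha.indicator hA) hK0'
      hK0 (ind_bd B hK') (ind_bd A hK)
    refine (abs_add_le _ _).trans ((add_le_add e1 e2).trans (le_of_eq ?_))
    ring
  · intro C hC
    exact step C hC a ha

/-- C2 a corner that vanishes on one side -/
lemma Skew.comm_P {D : E →L[ℝ] E} (hD : Skew D) {A : Set Ω} (hA : MeasurableSet A)
    (h : ∀ f, R.P Aᶜ (D (R.P A f)) = 0) (f : E) : R.P A (D f) = D (R.P A f) := by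
  -- the symmetry u = 1 on A, -1 on the complement
  set U : E →L[ℝ] E := R.P A - R.P Aᶜ with hU
  have hUf : ∀ g, U g = R.P A g - R.P Aᶜ g := fun g => rfl
  have hUM : ∀ g, U g = R.M (A.indicator (1 : Ω → ℝ) + (-1 : ℝ) • Aᶜ.indicator 1) g := by
    intro g
    rw [R.add (bmInd hA) ((bmInd hA.compl).smul _), R.smul _ (bmInd hA.compl), hUf]
    simp [P, sub_eq_add_neg]
  have hUn : ∀ g, ‖U g‖ ≤ ‖g‖ := by
    intro g
    rw [hUM]
    have := R.norm_le (a := A.indicator (1 : Ω → ℝ) + (-1 : ℝ) • Aᶜ.indicator 1) (C := 1)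
      ((bmInd hA).add ((bmInd hA.compl).smul _)) (fun ω => by
        by_cases hω : ω ∈ A <;> simp [hω]) zero_le_one g
    simpa using this
  have hUU : ∀ g, U (U g) = g := by
    intro g
    rw [hUf, hUf, map_sub, map_sub, R.P_P hA hA, R.P_P hA.compl hA.compl,
      R.P_disj hA hA.compl disjoint_compl_right, R.P_disj hA.compl hA disjoint_compl_left,
      Set.inter_self, Set.inter_self, sub_zero, zero_sub, sub_neg_eq_add, R.P_compl hA]
  have hD' : Skew (D - U.comp (D.comp U)) := hD.sub (hD.conj U U hUn hUn hUU)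
  have hO : ∀ g, (D - U.comp (D.comp U)) g = (2 : ℝ) • R.P A (D (R.P Aᶜ g)) := by
    intro g
    have e1 : (D - U.comp (D.comp U)) g = D g - U (D (U g)) := rfl
    have e2 : D g = R.P A (D (R.P A g)) + R.P A (D (R.P Aᶜ g)) + (R.P Aᶜ (D (R.P A g))
        + R.P Aᶜ (D (R.P Aᶜ g))) := by
      rw [← map_add, ← map_add, ← map_add, ← map_add, R.P_compl hA, R.P_compl hA]
    have e3 : U (D (U g)) = R.P A (D (R.P A g)) - R.P A (D (R.P Aᶜ g)) - (R.P Aᶜ (D (R.P A g))
        - R.P Aᶜ (D (R.P Aᶜ g))) := by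
      rw [hUf (D (U g)), hUf g, map_sub, map_sub, map_sub]
    rw [e1, e2, e3, h, two_smul]
    abel
  have hz := hD'.eq_zero_of_sq (fun g => by
    rw [hO, hO, map_smul, R.P_disj hA.compl hA disjoint_compl_left, smul_zero, map_zero, map_zero,
      smul_zero])
  have h2 : ∀ g, R.P A (D (R.P Aᶜ g)) = 0 := by
    intro g
    have := hz g
    rw [hO] at this
    exact (smul_eq_zero.mp this).resolve_left two_ne_zero
  have e4 : R.P A (D f) = R.P A (D (R.P A f)) := by
    conv_lhs => rw [← R.P_compl hA f, map_add, map_add, h2, add_zero]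
  have e5 : D (R.P A f) = R.P A (D (R.P A f)) := by
    conv_lhs => rw [← R.P_compl hA (D (R.P A f)), h, add_zero]
  rw [e4, ← e5]

end Act
end Pool.Agent.Helper60.RR
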