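import Pool.Agent.Helper60.RR.Meas

set_option autoImplicit false
set_option linter.unusedSectionVars false

open MeasureTheory Filter Topology
open scoped ENNReal

namespace Pool.Agent.Helper60.RR
namespace Act

variable {Ω : Type*} [MeasurableSpace Ω] {E : Type*} [NormedAddCommGroup E] [NormedSpace ℝ E]
variable (R : Act Ω E)

/-- invariant sets: `P B` commutes with all skew operators -/
def Inv (B : Set Ω) : Prop :=
  MeasurableSet B ∧ ∀ D : E →L[ℝ] E, Skew D → ∀ f, R.P B (D f) = D (R.P B f)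

/-- positive antisymmetric functional -/
structure Ref (x : E) (χ : E →L[ℝ] ℝ) : Prop where
  pos : ∀ A, MeasurableSet A → 0 ≤ χ (R.P A x)
  anti : ∀ D : E →L[ℝ] E, Skew D → ∀ A B : Set Ω, MeasurableSet A → MeasurableSet B →
    Disjoint A B → ∀ a b : Ω → ℝ, BM a → BM b →
    χ (R.M (A.indicator a) (D (R.M (B.indicator b) x)))
      + χ (R.M (B.indicator b) (D (R.M (A.indicator a) x))) = 0

/-- the reference functional and its measure -/
structure Pack (x : E) (χ : E →L[ℝ] ℝ) (m : Measure Ω) : Prop where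
  unit : R.IsUnit x
  ref : R.Ref x χ
  fin : IsFiniteMeasure m
  real : ∀ A, MeasurableSet A → m.real A = χ (R.P A x)
  int : ∀ c : Ω → ℝ, BM c → χ (R.M c x) = ∫ ω, c ω ∂m
  faith : ∀ C, MeasurableSet C → m C = 0 → R.P C x = 0

variable {R}

lemma Inv.compl {B : Set Ω} (h : R.Inv B) : R.Inv Bᶜ := by
  refine ⟨h.1.compl, fun D hD f => ?_⟩
  rw [R.P_compl' h.1, R.P_compl' h.1, h.2 D hD, map_sub]

lemma Inv.inter {B C : Set Ω} (h : R.Inv B) (h' : R.Inv C) : R.Inv (B ∩ C) := by
  refine ⟨h.1.inter h'.1, fun D hD f => ?_⟩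
  rw [← R.P_P h.1 h'.1, ← R.P_P h.1 h'.1, h'.2 D hD, h.2 D hD]

lemma Inv.univ : R.Inv Set.univ :=
  ⟨MeasurableSet.univ, fun D _ f => by rw [R.P_univ, R.P_univ]⟩

lemma Inv.empty : R.Inv ∅ := by simpa using (Inv.univ (R := R)).compl

lemma Inv.union {B C : Set Ω} (h : R.Inv B) (h' : R.Inv C) : R.Inv (B ∪ C) := by
  have := (h.compl.inter h'.compl).compl
  rwa [← Set.compl_union, compl_compl] at this

lemma Inv.biUnion {B : ℕ → Set Ω} (h : ∀ n, R.Inv (B n)) (n : ℕ) :
    R.Inv (⋃ i ∈ Finset.range n, B i) := by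
  induction n with
  | zero => simpa using Inv.empty
  | succ n ih =>
    rw [Finset.range_add_one, Finset.set_biUnion_insert]
    exact (h n).union ih

lemma Inv.iUnion {B : ℕ → Set Ω} (h : ∀ n, R.Inv (B n)) : R.Inv (⋃ n, B n) := by
  refine ⟨MeasurableSet.iUnion fun n => (h n).1, fun D hD f => ?_⟩
  have hmono : Monotone (fun n : ℕ => ⋃ i ∈ Finset.range n, B i) := by
    intro i j hij
    exact Set.biUnion_subset_biUnion_left (fun x hx => Finset.mem_coe.mpr
      (Finset.mem_range.mpr ((Finset.mem_range.mp (Finset.mem_coe.mp hx)).trans_le hij)))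
  have hU : (⋃ n : ℕ, ⋃ i ∈ Finset.range n, B i) = ⋃ n, B n := by
    ext ω
    simp only [Set.mem_iUnion, Finset.mem_range]
    constructor
    · rintro ⟨n, i, -, h⟩; exact ⟨i, h⟩
    · rintro ⟨i, h⟩; exact ⟨i + 1, i, Nat.lt_succ_self i, h⟩
  have ht := fun g => R.tendsto_mono (fun n => ⋃ i ∈ Finset.range n, B i)
    (fun n => (Inv.biUnion h n).1) hmono (MeasurableSet.iUnion fun n => (h n).1) hU g
  have h1 := ht (D f)
  have h2 := (D.continuous.tendsto _).comp (ht f)
  refine tendsto_nhds_unique h1 (h2.congr fun n => ?_)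
  exact ((Inv.biUnion h n).2 D hD f).symm

variable (R)

/-- the sigma-algebra of invariant sets -/
@[reducible] def mB : MeasurableSpace Ω where
  MeasurableSet' := R.Inv
  measurableSet_empty := Inv.empty
  measurableSet_compl := fun _ h => h.compl
  measurableSet_iUnion := fun _ h => Inv.iUnion h

lemma mB_le : R.mB ≤ ‹MeasurableSpace Ω› := fun _ h => h.1

lemma measurableSet_mB {B : Set Ω} : MeasurableSet[R.mB] B ↔ R.Inv B := Iff.rfl

end Act
end Pool.Agent.Helper60.RR
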