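import Pool.Agent.Helper60.RR.Core

set_option autoImplicit false
set_option linter.unusedSectionVars false

open MeasureTheory Filter Topology
open scoped ENNReal

namespace Pool.Agent.Helper60.RR
namespace Act

variable {Ω : Type*} [MeasurableSpace Ω] {E : Type*} [NormedAddCommGroup E] [NormedSpace ℝ E]
variable {R : Act Ω E}

/-- faithfulness: a positive functional `χ` that is faithful on the multiples of the unit
separates. -/
lemma faithful {x : E} (hx : R.IsUnit x) {χ : E →L[ℝ] ℝ} {m : Measure Ω} (hfin : IsFiniteMeasure m)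
    (hint : ∀ c : Ω → ℝ, BM c → χ (R.M c x) = ∫ ω, c ω ∂m) {S : Set Ω}
    (hS : MeasurableSet S) (hnull : ∀ C, MeasurableSet C → C ⊆ S → m C = 0 → R.P C x = 0)
    {v : E} (hv : R.P S v = v) (hz : ∀ a : Ω → ℝ, BM a → χ (R.M a v) = 0) : v = 0 := by
  obtain ⟨g, hg, h1, h2⟩ := hx.approx v
  have key : ∀ n : ℕ, R.M ({ω | ‖g ω‖ ≤ n}.indicator g) x = 0 := by
    intro n
    set A := {ω | ‖g ω‖ ≤ n} with hA
    have hAm : MeasurableSet A := sub_meas hg n
    have hb : BM (A.indicator g) := bm_sub hg n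
    have e1 : χ (R.M (A.indicator g) (R.M (A.indicator g) x)) = 0 := by
      rw [← h1 n, R.M_comm_P hAm hb, R.M_mul_ind hAm hb]
      exact hz _ (hb.indicator hAm)
    rw [← R.mul hb hb, hint _ (hb.mul hb)] at e1
    have e2 : ∀ ω, (A.indicator g * A.indicator g) ω = (A.indicator g ω) ^ 2 := by
      intro ω
      rw [Pi.mul_apply, sq]
    simp_rw [e2] at e1
    have hint' : Integrable (fun ω => (A.indicator g ω) ^ 2) m := by
      obtain ⟨hb1, C, hC⟩ := hb
      refine Integrable.of_bound (hb1.pow_const 2).aestronglyMeasurable (C ^ 2) ?_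
      refine Eventually.of_forall fun ω => ?_
      rw [norm_pow]
      exact pow_le_pow_left₀ (norm_nonneg _) (hC ω) 2
    have e3 := (integral_eq_zero_iff_of_nonneg (fun ω => by positivity) hint').mp e1
    set C := {ω | A.indicator g ω ≠ 0} with hC
    have hCm : MeasurableSet C := hb.1 (measurableSet_singleton (0 : ℝ)).compl
    have e4 : m C = 0 := by
      have : ∀ᵐ ω ∂m, ω ∉ C := by
        filter_upwards [e3] with ω hω hc
        apply hc
        simpa using hω
      exact measure_eq_zero_iff_ae_notMem.mpr this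
    have e5 : R.P (C ∩ S) x = 0 := hnull _ (hCm.inter hS) Set.inter_subset_right
      (measure_mono_null Set.inter_subset_left e4)
    have e6 : R.M (A.indicator g) x = R.P S (R.M (A.indicator g) x) := by
      rw [← h1 n, R.P_P hS hAm, Set.inter_comm, ← R.P_P hAm hS, hv]
    have e7 : R.P S (R.M (A.indicator g) x) = R.M (A.indicator g) (R.P (C ∩ S) x) := by
      rw [R.M_mul_ind hS hb, R.M_mul_ind' (hCm.inter hS) hb]
      congr 2
      ext ω
      by_cases hω : ω ∈ S
      · by_cases hc : ω ∈ C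
        · rw [Set.indicator_of_mem hω, Set.indicator_of_mem (show ω ∈ C ∩ S from ⟨hc, hω⟩)]
        · have hc' : ω ∉ C ∩ S := fun h => hc h.1
          rw [Set.indicator_of_mem hω, Set.indicator_of_notMem hc']
          by_contra h0; exact hc h0
      · have hc' : ω ∉ C ∩ S := fun h => hω h.2
        rw [Set.indicator_of_notMem hω, Set.indicator_of_notMem hc']
    rw [e6, e7, e5, map_zero]
  refine tendsto_nhds_unique h2 ?_
  simp_rw [key]
  exact tendsto_const_nhds

/-- intertwining off the diagonal forces a corner to vanish. -/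
lemma corner_zero {r : Ω → ℝ} (hr : Measurable r) {A B : Set Ω} (hA : MeasurableSet A)
    (hB : MeasurableSet B) {s t K : ℝ} (ht : 0 ≤ t) (hts : t < s) (hrA : ∀ ω ∈ A, s ≤ r ω)
    (hrK : ∀ ω ∈ A, r ω ≤ K)
    (hrB : ∀ ω ∈ B, 0 ≤ r ω ∧ r ω ≤ t) (D : E →L[ℝ] E)
    (hint : ∀ f, R.M (A.indicator r) (D (R.P B f)) = R.P A (D (R.M (B.indicator r) f))) (f : E) :
    R.P A (D (R.P B f)) = 0 := by
  have hs : 0 < s := lt_of_le_of_lt ht hts
  have hbA : BM (A.indicator r) := bm_of_bdd hr hA ⟨K, fun ω hω => by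
    rw [Real.norm_eq_abs, abs_of_nonneg (hs.le.trans (hrA ω hω))]
    exact hrK ω hω⟩
  have hbB : BM (B.indicator r) := bm_of_bdd hr hB ⟨t, fun ω hω => by
    rw [Real.norm_eq_abs, abs_of_nonneg (hrB ω hω).1]
    exact (hrB ω hω).2⟩
  have hbQ : BM (A.indicator fun ω => (r ω)⁻¹) := bm_of_bdd hr.inv hA ⟨s⁻¹, fun ω hω => by
    rw [Pi.inv_apply, norm_inv, Real.norm_eq_abs, abs_of_nonneg (hs.le.trans (hrA ω hω))]
    exact inv_anti₀ hs (hrA ω hω)⟩
  set T : E →L[ℝ] E := (R.P A).comp (D.comp (R.P B)) with hT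
  have hTf : ∀ g, T g = R.P A (D (R.P B g)) := fun g => rfl
  have key : ∀ g, T g = R.M (A.indicator fun ω => (r ω)⁻¹)
      (T (R.M (B.indicator r) g)) := by
    intro g
    have e1 : R.P B (R.M (B.indicator r) g) = R.M (B.indicator r) g := by
      rw [R.M_mul_ind hB hbB]
      congr 2
      ext ω; by_cases h : ω ∈ B <;> simp [h]
    rw [hTf, hTf, e1, ← hint, ← R.mul hbQ hbA, P]
    congr 2
    ext ω
    by_cases h : ω ∈ A
    · have : r ω ≠ 0 := (hs.trans_le (hrA ω h)).ne'
      simp [h, this]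
    · simp [h]
  have hle : ‖T‖ ≤ (t / s) * ‖T‖ := by
    refine T.opNorm_le_bound (by positivity) fun g => ?_
    rw [key g]
    have n1 := R.norm_le hbQ (C := s⁻¹) (fun ω => by
      by_cases h : ω ∈ A
      · rw [Set.indicator_of_mem h, norm_inv, Real.norm_eq_abs,
          abs_of_nonneg (hs.le.trans (hrA ω h))]
        exact inv_anti₀ hs (hrA ω h)
      · rw [Set.indicator_of_notMem h, norm_zero]; positivity) (by positivity)
      (T (R.M (B.indicator r) g))
    have n2 := R.norm_le hbB (C := t) (fun ω => by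
      by_cases h : ω ∈ B
      · rw [Set.indicator_of_mem h, Real.norm_eq_abs, abs_of_nonneg (hrB ω h).1]
        exact (hrB ω h).2
      · rw [Set.indicator_of_notMem h, norm_zero]; exact ht) ht g
    have n3 := T.le_opNorm (R.M (B.indicator r) g)
    calc _ ≤ s⁻¹ * ‖T (R.M (B.indicator r) g)‖ := n1
      _ ≤ s⁻¹ * (‖T‖ * (t * ‖g‖)) := by
          gcongr
          exact n3.trans (mul_le_mul_of_nonneg_left n2 (norm_nonneg _))
      _ = t / s * ‖T‖ * ‖g‖ := by rw [div_eq_mul_inv]; ring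
  have hT0 : ‖T‖ = 0 := by
    have h1 : t / s < 1 := by rw [div_lt_one hs]; exact hts
    have h2 := norm_nonneg T
    nlinarith
  have : T = 0 := norm_eq_zero.mp hT0
  rw [← hTf, this]; rfl

/-- C5 the duality map -/
theorem Pack.dual {x : E} {χ : E →L[ℝ] ℝ} {m : Measure Ω} (h : R.Pack x χ m)
    {w : Ω → ℝ} (hw : Measurable w) {δ C : ℝ} (hδ : 0 < δ) (hw1 : ∀ ω, δ ≤ w ω)
    (hw2 : ∀ ω, w ω ≤ C) :
    ∃ (ρ : Ω → ℝ) (φ : E →L[ℝ] ℝ), Measurable[R.mB] ρ ∧ (∀ ω, 0 ≤ ρ ω) ∧ Integrable ρ m ∧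
      Norming (R.M w x) φ ∧ ∀ v : Ω → ℝ, BM v → φ (R.M v x) = ∫ ω, ρ ω * w ω * v ω ∂m := by
  have hfin := h.fin
  have hw0 : ∀ ω, 0 < w ω := fun ω => hδ.trans_le (hw1 ω)
  have hwne : ∀ ω, w ω ≠ 0 := fun ω => (hw0 ω).ne'
  have hbW : BM w := ⟨hw, C, fun ω => by
    rw [Real.norm_eq_abs, abs_of_pos (hw0 ω)]; exact hw2 ω⟩
  have hbWi : BM (fun ω => (w ω)⁻¹) := by
    refine ⟨hw.inv, δ⁻¹, fun ω => ?_⟩
    rw [norm_inv, Real.norm_eq_abs, abs_of_pos (hw0 ω)]
    exact inv_anti₀ hδ (hw1 ω)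
  set z := R.M w x with hz
  obtain ⟨φ, hφ⟩ := exists_norming z
  obtain ⟨mz, hmzfin, hmzreal, hmzint⟩ :=
    R.exists_measure (f := z) (ψ := φ) (fun A hA => R.psi_P_nonneg hφ hA)
  have hMz : ∀ v : Ω → ℝ, BM v → R.M (fun ω => v ω * (w ω)⁻¹) z = R.M v x := by
    intro v hv
    have hb : BM (fun ω => v ω * (w ω)⁻¹) := hv.mul hbWi
    rw [hz, ← R.mul hb hbW]
    congr 2
    ext ω
    simp [hwne ω]
  have hfull : ∀ A, MeasurableSet A → m A = 0 → ∀ f, R.P A f = 0 := fun A hA h0 f =>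
    h.unit.P_eq_zero hA (h.faith A hA h0) f
  have hac : mz ≪ m := by
    refine Measure.AbsolutelyContinuous.mk fun A hA hA0 => ?_
    have h1 : mz.real A = 0 := by rw [hmzreal A hA, hfull A hA hA0, map_zero]
    exact (measureReal_eq_zero_iff).mp h1
  set ρ : Ω → ℝ := fun ω => (mz.rnDeriv m ω).toReal with hρ
  have hρm : Measurable ρ := (Measure.measurable_rnDeriv mz m).ennreal_toReal
  have hρ0 : ∀ ω, 0 ≤ ρ ω := fun ω => ENNReal.toReal_nonneg
  have hint : ∀ g : Ω → ℝ, ∫ ω, g ω ∂mz = ∫ ω, ρ ω * g ω ∂m := fun g =>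
    (integral_toReal_rnDeriv_mul hac).symm
  set r : Ω → ℝ := fun ω => ρ ω / (w ω) ^ 2 with hr
  have hrm : Measurable r := hρm.div (hw.pow_const 2)
  have hr0 : ∀ ω, 0 ≤ r ω := fun ω => div_nonneg (hρ0 ω) (sq_nonneg _)
  set Ev : ℕ → Set Ω := fun n => {ω | ρ ω ≤ n} with hEv
  have hEvm : ∀ n, MeasurableSet (Ev n) := fun n => measurableSet_le hρm measurable_const
  have hEvmono : Monotone Ev := by
    intro i j hij ω hω
    exact le_trans (show ρ ω ≤ i from hω) (Nat.cast_le.mpr hij)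
  have hEvU : ∀ ω, ∃ n, ω ∈ Ev n := fun ω => exists_nat_ge (ρ ω)
  have hrbd : ∀ n, ∀ ω ∈ Ev n, r ω ≤ n / δ ^ 2 := by
    intro n ω hω
    have h1 : ρ ω ≤ n := hω
    have h2 : δ ^ 2 ≤ (w ω) ^ 2 := pow_le_pow_left₀ hδ.le (hw1 ω) 2
    exact div_le_div₀ (by positivity) h1 (by positivity) h2
  -- Claim A
  have claimA : ∀ (n : ℕ) (A : Set Ω), MeasurableSet A → A ⊆ Ev n → ∀ c : Ω → ℝ, BM c → ∀ f : E,
      φ (R.M (A.indicator c) f) = χ (R.M (A.indicator fun ω => c ω * ρ ω * (w ω)⁻¹) f) := by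
    intro n A hA hAE c hc f
    have hb2 : BM (A.indicator fun ω => c ω * ρ ω * (w ω)⁻¹) := by
      obtain ⟨hc1, K, hK⟩ := hc
      refine bm_of_bdd ((hc1.mul hρm).mul hw.inv) hA ⟨K * n * δ⁻¹, fun ω hω => ?_⟩
      have hK0 : 0 ≤ K := (norm_nonneg _).trans (hK ω)
      change ‖c ω * ρ ω * (w ω)⁻¹‖ ≤ _
      rw [norm_mul, norm_mul, norm_inv, Real.norm_eq_abs (ρ ω),
        Real.norm_eq_abs (w ω), abs_of_nonneg (hρ0 ω), abs_of_pos (hw0 ω)]
      exact mul_le_mul (mul_le_mul (hK ω) (hAE hω) (hρ0 ω) hK0) (inv_anti₀ hδ (hw1 ω))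
        (inv_nonneg.mpr (hw0 ω).le) (by positivity)
    refine h.unit.ext (S := fun f => φ (R.M (A.indicator c) f))
      (T := fun f => χ (R.M (A.indicator fun ω => c ω * ρ ω * (w ω)⁻¹) f))
      (φ.continuous.comp (R.M _).continuous) (χ.continuous.comp (R.M _).continuous) ?_ f
    intro b hb
    rw [← R.mul (hc.indicator hA) hb, ← hMz _ ((hc.indicator hA).mul hb),
      hmzint (fun ω => (A.indicator c * b) ω * (w ω)⁻¹) (((hc.indicator hA).mul hb).mul hbWi),
      hint, ← R.mul hb2 hb,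
      h.int _ (hb2.mul hb)]
    refine integral_congr_ae (Eventually.of_forall fun ω => ?_)
    simp only [Pi.mul_apply]
    by_cases hω : ω ∈ A
    · simp only [Set.indicator_of_mem hω]
      ring
    · simp [hω]
  -- Claim B
  have claimB : ∀ D : E →L[ℝ] E, Skew D → ∀ (n : ℕ) (A B : Set Ω), MeasurableSet A →
      MeasurableSet B → A ⊆ Ev n → B ⊆ Ev n → Disjoint A B → ∀ a b : Ω → ℝ, BM a → BM b →
      χ (R.M (A.indicator fun ω => a ω * r ω) (D (R.M (B.indicator b) x)))
        = χ (R.M (A.indicator a) (D (R.M (B.indicator fun ω => b ω * r ω) x))) := by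
    intro D hD n A B hA hB hAE hBE hAB a b ha hb
    have haW : BM (fun ω => a ω * (w ω)⁻¹) := ha.mul hbWi
    have hbWW : BM (fun ω => b ω * (w ω)⁻¹) := hb.mul hbWi
    have h1 := anti (R := R) hD hφ hA hB hAB haW hbWW
    have hind : ∀ (S : Set Ω) (g : Ω → ℝ), MeasurableSet S → BM g →
        R.M (S.indicator fun ω => g ω * (w ω)⁻¹) z = R.M (S.indicator g) x := by
      intro S g hS hg
      rw [← hMz _ (hg.indicator hS)]
      congr 2
      ext ω; by_cases hω : ω ∈ S <;> simp [hω]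
    have hind2 : ∀ (S : Set Ω) (g : Ω → ℝ) (v : E), MeasurableSet S → S ⊆ Ev n → BM g →
        φ (R.M (S.indicator fun ω => g ω * (w ω)⁻¹) v)
          = χ (R.M (S.indicator fun ω => g ω * r ω) v) := by
      intro S g v hS hSE hg
      have e2 := claimA n S hS hSE (fun ω => g ω * (w ω)⁻¹) (hg.mul hbWi) v
      rw [e2]
      congr 3
      ext ω
      by_cases hω : ω ∈ S
      · simp only [hr, Set.indicator_of_mem hω]
        have := hwne ω
        field_simp
      · simp only [Set.indicator_of_notMem hω]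
    rw [hind A a hA ha, hind B b hB hb, hind2 A a _ hA hAE ha, hind2 B b _ hB hBE hb] at h1
    have hbr : BM (B.indicator fun ω => b ω * r ω) := by
      obtain ⟨hb1, K, hK⟩ := hb
      refine bm_of_bdd (hb1.mul hrm) hB ⟨K * (n / δ ^ 2), fun ω hω => ?_⟩
      change ‖b ω * r ω‖ ≤ _
      rw [norm_mul, Real.norm_eq_abs (r ω), abs_of_nonneg (hr0 ω)]
      exact mul_le_mul (hK ω) (hrbd n ω (hBE hω)) (hr0 ω) ((norm_nonneg _).trans (hK ω))
    have h2 := h.ref.anti D hD A B hA hB hAB a _ ha hbr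
    simp only [Set.indicator_indicator, Set.inter_self] at h2
    linarith
  -- Claim C
  have claimC : ∀ D : E →L[ℝ] E, Skew D → ∀ (n : ℕ) (A B : Set Ω), MeasurableSet A →
      MeasurableSet B → A ⊆ Ev n → B ⊆ Ev n → ∀ s t : ℝ, 0 ≤ t → t < s → (∀ ω ∈ A, s ≤ r ω) →
      (∀ ω ∈ B, r ω ≤ t) → ∀ f, R.P A (D (R.P B f)) = 0 := by
    intro D hD n A B hA hB hAE hBE s t ht hts hAs hBt
    have hAB : Disjoint A B := by
      rw [Set.disjoint_left]
      intro ω h1 h2
      have := hAs ω h1; have := hBt ω h2; linarith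
    refine corner_zero hrm hA hB ht hts hAs (fun ω hω => hrbd n ω (hAE hω))
      (fun ω hω => ⟨hr0 ω, hBt ω hω⟩) D ?_
    have hbA : BM (A.indicator r) := bm_of_bdd hrm hA ⟨n / δ ^ 2, fun ω hω => by
      rw [Real.norm_eq_abs, abs_of_nonneg (hr0 ω)]
      exact hrbd n ω (hAE hω)⟩
    have hbB : BM (B.indicator r) := bm_of_bdd hrm hB ⟨n / δ ^ 2, fun ω hω => by
      rw [Real.norm_eq_abs, abs_of_nonneg (hr0 ω)]
      exact hrbd n ω (hBE hω)⟩
    intro f
    refine h.unit.ext (S := fun f => R.M (A.indicator r) (D (R.P B f)))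
      (T := fun f => R.P A (D (R.M (B.indicator r) f)))
      ((R.M _).continuous.comp (D.continuous.comp (R.P B).continuous))
      ((R.P A).continuous.comp (D.continuous.comp (R.M _).continuous)) ?_ f
    intro b hb
    rw [← sub_eq_zero]
    refine faithful h.unit hfin h.int MeasurableSet.univ (fun S hS _ hS0 => h.faith S hS hS0)
      (R.P_univ _) ?_
    intro a ha
    have e1 := claimB D hD n A B hA hB hAE hBE hAB a b ha hb
    rw [map_sub, map_sub, sub_eq_zero]
    have e2 : R.M a (R.M (A.indicator r) (D (R.P B (R.M b x))))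
        = R.M (A.indicator fun ω => a ω * r ω) (D (R.M (B.indicator b) x)) := by
      rw [← R.mul ha hbA, R.M_mul_ind hB hb]
      congr 2
      ext ω; by_cases hω : ω ∈ A <;> simp [hω]
    have e3 : R.M a (R.P A (D (R.M (B.indicator r) (R.M b x))))
        = R.M (A.indicator a) (D (R.M (B.indicator fun ω => b ω * r ω) x)) := by
      rw [R.M_mul_ind' hA ha, ← R.mul hbB hb]
      congr 4
      ext ω; by_cases hω : ω ∈ B <;> simp [hω, mul_comm]
    rw [e2, e3, e1]
  -- Claim D
  have claimD : ∀ D : E →L[ℝ] E, Skew D → ∀ t : ℝ, 0 ≤ t → ∀ f,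
      R.P {ω | r ω ≤ t}ᶜ (D (R.P {ω | r ω ≤ t} f)) = 0 := by
    intro D hD t ht f
    have hNm : MeasurableSet {ω | r ω ≤ t} := measurableSet_le hrm measurable_const
    have step1 : ∀ (k : ℕ), R.P ({ω | t + 1 / ((k : ℝ) + 1) ≤ r ω} ∩ Ev k)
        (D (R.P {ω | r ω ≤ t} f)) = 0 := by
      intro k
      have hAm : MeasurableSet {ω | t + 1 / ((k : ℝ) + 1) ≤ r ω} :=
        measurableSet_le measurable_const hrm
      have hk : (0 : ℝ) < 1 / ((k : ℝ) + 1) := by positivity
      have h1 := R.tendsto_mono (fun n => {ω | r ω ≤ t} ∩ Ev n) (fun n => hNm.inter (hEvm n))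
        (fun i j hij => Set.inter_subset_inter_right _ (hEvmono hij)) hNm (by
          ext ω
          simp only [Set.mem_iUnion, Set.mem_inter_iff]
          exact ⟨fun ⟨n, h1, _⟩ => h1, fun h1 => (hEvU ω).imp fun n hn => ⟨h1, hn⟩⟩) f
      have h2 := (((R.P ({ω | t + 1 / ((k : ℝ) + 1) ≤ r ω} ∩ Ev k)).continuous.comp
        D.continuous).tendsto _).comp h1
      refine tendsto_nhds_unique h2 ?_
      refine tendsto_const_nhds.congr' ?_
      filter_upwards [eventually_ge_atTop k] with n hn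
      simp only [Function.comp]
      refine (claimC D hD n _ _ (hAm.inter (hEvm k)) (hNm.inter (hEvm n))
        (Set.inter_subset_right.trans (hEvmono hn)) Set.inter_subset_right
        (t + 1 / ((k : ℝ) + 1)) t ht (by linarith) (fun ω hω => hω.1) (fun ω hω => hω.1) f).symm
    have h3 := R.tendsto_mono (fun k : ℕ => {ω | t + 1 / ((k : ℝ) + 1) ≤ r ω} ∩ Ev k)
      (fun k => (measurableSet_le measurable_const hrm).inter (hEvm k)) (by
        intro i j hij ω hω
        refine ⟨?_, hEvmono hij hω.2⟩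
        refine le_trans ?_ (show t + 1 / ((i : ℝ) + 1) ≤ r ω from hω.1)
        have : 1 / ((j : ℝ) + 1) ≤ 1 / ((i : ℝ) + 1) := by
          apply one_div_le_one_div_of_le (by positivity)
          have : (i : ℝ) ≤ j := Nat.cast_le.mpr hij
          linarith
        simpa using this) (B := {ω | r ω ≤ t}ᶜ) hNm.compl (by
        ext ω
        simp only [Set.mem_iUnion, Set.mem_inter_iff, Set.mem_compl_iff, Set.mem_ofPred_eq, not_le]
        constructor
        · rintro ⟨k, h1, -⟩
          have hk : (0 : ℝ) < 1 / ((k : ℝ) + 1) := by positivity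
          linarith
        · intro h1
          obtain ⟨k, hk⟩ := exists_nat_one_div_lt (sub_pos.mpr h1)
          obtain ⟨n, hn⟩ := hEvU ω
          refine ⟨max k n, ?_, hEvmono (le_max_right _ _) hn⟩
          have : 1 / (((max k n : ℕ) : ℝ) + 1) ≤ 1 / ((k : ℝ) + 1) := by
            apply one_div_le_one_div_of_le (by positivity)
            have : (k : ℝ) ≤ (max k n : ℕ) := Nat.cast_le.mpr (le_max_left _ _)
            linarith
          linarith) (D (R.P {ω | r ω ≤ t} f))
    refine tendsto_nhds_unique h3 ?_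
    simp_rw [step1]
    exact tendsto_const_nhds
  -- Claim E: r is measurable for the invariant sets
  have claimE : Measurable[R.mB] r := by
    have key : ∀ t : ℝ, R.Inv (r ⁻¹' Set.Iic t) := by
      intro t
      by_cases ht : 0 ≤ t
      · have hNm : MeasurableSet {ω | r ω ≤ t} := measurableSet_le hrm measurable_const
        exact ⟨hNm, fun D hD f => Skew.comm_P hD hNm (claimD D hD t ht) f⟩
      · have : r ⁻¹' Set.Iic t = ∅ := by
          ext ω
          simp only [Set.mem_preimage, Set.mem_Iic, Set.mem_empty_iff_false, iff_false]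
          exact fun hω => ht ((hr0 ω).trans hω)
        rw [this]; exact Inv.empty
    exact measurable_of_Iic key
  have hρint : Integrable ρ m := Measure.integrable_toReal_rnDeriv
  have hrint : Integrable r m := by
    refine Integrable.mono' (hρint.const_mul ((δ ^ 2)⁻¹)) hrm.aestronglyMeasurable
      (Eventually.of_forall fun ω => ?_)
    rw [Real.norm_eq_abs, abs_of_nonneg (hr0 ω)]
    have h2 : δ ^ 2 ≤ (w ω) ^ 2 := pow_le_pow_left₀ hδ.le (hw1 ω) 2
    change ρ ω / w ω ^ 2 ≤ _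
    rw [div_eq_mul_inv, mul_comm]
    exact mul_le_mul_of_nonneg_right (inv_anti₀ (by positivity) h2) (hρ0 ω)
  refine ⟨r, φ, claimE, hr0, hrint, hφ, fun v hv => ?_⟩
  rw [← hMz v hv, hmzint (fun ω => v ω * (w ω)⁻¹) (hv.mul hbWi), hint]
  refine integral_congr_ae (Eventually.of_forall fun ω => ?_)
  have := hwne ω
  simp only [hr]
  field_simp

end Act
end Pool.Agent.Helper60.RR
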