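import Pool.Agent.Helper60.RR.Base

set_option autoImplicit false
set_option linter.unusedSectionVars false

open Filter Topology

namespace Pool.Agent.Helper60.RR
namespace Act

variable {Ω : Type*} [MeasurableSpace Ω] {E : Type*} [NormedAddCommGroup E] [NormedSpace ℝ E]

/-- generators of one-parameter groups of isometries are skew -/
theorem skew_of_exp [CompleteSpace E] {D : E →L[ℝ] E}
    (h : ∀ (t : ℝ) (x : E), ‖NormedSpace.exp (t • D) x‖ = ‖x‖) : Skew D := by
  intro f ψ hψ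
  have h1 : HasDerivAt (fun t : ℝ => NormedSpace.exp (t • D)) (NormedSpace.exp ((0 : ℝ) • D) * D)
      0 := hasDerivAt_exp_smul_const D (0 : ℝ)
  have h2 : HasDerivAt (fun t : ℝ => ψ (NormedSpace.exp (t • D) f)) (ψ (D f)) 0 := by
    have h3 := (ψ.comp (ContinuousLinearMap.apply ℝ E f)).hasFDerivAt.comp_hasDerivAt (0 : ℝ) h1
    have e1 : (ψ.comp (ContinuousLinearMap.apply ℝ E f)) (NormedSpace.exp ((0 : ℝ) • D) * D)
        = ψ (D f) := by
      rw [zero_smul, NormedSpace.exp_zero, one_mul]; rfl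
    rw [e1] at h3
    exact h3
  refine IsLocalMax.hasDerivAt_eq_zero (f := fun t : ℝ => ψ (NormedSpace.exp (t • D) f))
    (Eventually.of_forall fun t => ?_) h2
  simp only
  rw [zero_smul, NormedSpace.exp_zero]
  refine (hψ.le _).trans ?_
  rw [h t f, one_apply_eq_self, hψ.2]

variable {R : Act Ω E}

/-- the unit can be normalised -/
lemma IsUnit.smul {x : E} (hx : R.IsUnit x) {c : ℝ} (hc : 0 < c) : R.IsUnit (c⁻¹ • x) := by
  intro f
  obtain ⟨g, hg, h1⟩ := hx f
  refine ⟨fun ω => c * g ω, hg.const_mul _, fun A hA hC => ?_⟩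
  obtain ⟨C, hC⟩ := hC
  have hC' : ∃ C' : ℝ, ∀ ω ∈ A, ‖g ω‖ ≤ C' := by
    refine ⟨C / c, fun ω hω => ?_⟩
    have := hC ω hω
    rw [norm_mul, Real.norm_eq_abs c, abs_of_pos hc] at this
    rw [le_div_iff₀ hc, mul_comm]
    exact this
  rw [h1 A hA hC', map_smul]
  have e1 : (A.indicator fun ω => c * g ω) = c • A.indicator g := by
    ext ω; by_cases hω : ω ∈ A <;> simp [hω]
  rw [e1, R.smul _ (bm_of_bdd hg hA hC'), _root_.smul_apply, smul_smul,
    inv_mul_cancel₀ hc.ne', one_smul]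

end Act
end Pool.Agent.Helper60.RR
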