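import Pool.Agent.Helper60.RR.Triv
import Pool.Agent.Helper60.RR.Gen
import Pool.Agent.Helper98.RR.Space
import Pool.Agent.Helper98.RR.EqNorm
import Pool.Agent.Helper89.RR.Pack
import Pool.Agent.Helper89.RR.Cyc

set_option autoImplicit false
set_option linter.unusedSectionVars false

open MeasureTheory Filter Topology

namespace Pool.Agent.Helper60.RR

namespace Act

variable {Ω : Type*} [MeasurableSpace Ω] {E : Type*} [NormedAddCommGroup E] [NormedSpace ℝ E]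

/-- the abstract theorem -/
theorem parallelogram [CompleteSpace E] [TopologicalSpace.SeparableSpace E] (R : Act Ω E) {x : E}
    (hx : R.IsUnit x) (htr : ∀ y z : E, ‖y‖ = 1 → ‖z‖ = 1 → ∃ T : E ≃ₗᵢ[ℝ] E, T y = z)
    (hD : ∃ D : E →L[ℝ] E, Skew D ∧ D ≠ 0) (f g : E) :
    ‖f + g‖ ^ 2 + ‖f - g‖ ^ 2 = 2 * (‖f‖ ^ 2 + ‖g‖ ^ 2) := by
  by_cases hx0 : x = 0
  · have hz : ∀ v : E, v = 0 := by
      intro v
      obtain ⟨g, -, h1, h2⟩ := hx.approx v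
      rw [hx0] at h2
      refine tendsto_nhds_unique h2 ?_
      simp only [map_zero]
      exact tendsto_const_nhds
    rw [hz f, hz g]; simp
  have hxn : 0 < ‖x‖ := norm_pos_iff.mpr hx0
  have hy1 : ‖(‖x‖⁻¹ • x)‖ = 1 := by rw [norm_smul, norm_inv, norm_norm, inv_mul_cancel₀ hxn.ne']
  have hyu : R.IsUnit (‖x‖⁻¹ • x) := hx.smul hxn
  obtain ⟨χ, m, h⟩ := exists_pack hyu
  have hne := exists_skew_ne htr hD
  have htriv : ∀ B, R.Inv B → (∀ f, R.P B f = 0) ∨ (∀ f, R.P B f = f) := fun B hB =>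
    trivial_of_cyclic (fun V hV hVD hxV f => h.cyclic hne V hV hVD hxV f) hy1 hyu htr hB
  exact parallelogram_of_eqnorm h htriv (fun f g hf hg heq => h.eqnorm hf hg heq) f g

end Act

/-- real function spaces -/
theorem parallelogram_space {Ω : Type*} [MeasurableSpace Ω] {μ : Measure Ω} {X : Type*}
    [NormedAddCommGroup X] [NormedSpace ℝ X] [CompleteSpace X]
    [TopologicalSpace.SeparableSpace X] {j : X →ₗ[ℝ] (Ω →ₘ[μ] ℝ)}
    (hj : IsFunctionSpace μ j)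
    (htr : ∀ y z : X, ‖y‖ = 1 → ‖z‖ = 1 → ∃ T : X ≃ₗᵢ[ℝ] X, T y = z)
    {D : X →L[ℝ] X} (hD : ∀ (t : ℝ) (x : X), ‖NormedSpace.exp (t • D) x‖ = ‖x‖) (hD0 : D ≠ 0)
    (f g : X) : ‖f + g‖ ^ 2 + ‖f - g‖ ^ 2 = 2 * (‖f‖ ^ 2 + ‖g‖ ^ 2) := by
  obtain ⟨R, x, hx⟩ := exists_act hj
  exact Act.parallelogram R hx htr ⟨D, Act.skew_of_exp hD, hD0⟩ f g

end Pool.Agent.Helper60.RR
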