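import Pool.Agent.Helper60.RR.VDef
import Pool.Agent.Helper98.RR.Space

set_option autoImplicit false
set_option linter.unusedSectionVars false

open MeasureTheory Filter Topology

namespace Pool.Agent.Helper60.RR

universe u v w

variable {Ω : Type v} [MeasurableSpace Ω] {μ : Measure Ω} {H : Type w} [NormedAddCommGroup H]
  [InnerProductSpace ℝ H] {E : Type u} [NormedAddCommGroup E] [NormedSpace ℝ E]
  {j : E →ₗ[ℝ] (Ω →ₘ[μ] H)}

section
variable {ι : Type w} [MeasurableSpace ι] [MeasurableSingletonClass ι] [Countable ι]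

/-- the measure on `ι × Ω` -/
noncomputable def mu2 (ι : Type w) [MeasurableSpace ι] (μ : Measure Ω) : Measure (ι × Ω) :=
  Measure.sum fun i : ι => μ.map (Prod.mk i)

lemma ae_mu2 {p : ι × Ω → Prop} : (∀ᵐ q ∂(mu2 ι μ), p q) ↔ ∀ i, ∀ᵐ ω ∂μ, p (i, ω) := by
  rw [mu2, Measure.ae_sum_iff]
  refine forall_congr' fun i => ?_
  exact (measurableEmbedding_prodMk_left i).ae_map_iff

variable (b : HilbertBasis ι ℝ H)

lemma coord_meas {F : Ω → H} (hF : StronglyMeasurable F) :
    Measurable fun q : ι × Ω => inner ℝ (b q.1) (F q.2) := by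
  refine measurable_from_prod_countable_right fun i => ?_
  have h1 : StronglyMeasurable fun ω => inner ℝ (b i) (F ω) :=
    (innerSL ℝ (b i)).continuous.comp_stronglyMeasurable hF
  exact h1.measurable

/-- coordinates -/
noncomputable def coord (j : E →ₗ[ℝ] (Ω →ₘ[μ] H)) (f : E) : (ι × Ω) →ₘ[mu2 ι μ] ℝ :=
  AEEqFun.mk (fun q : ι × Ω => inner ℝ (b q.1) ((j f : Ω → H) q.2))
    (coord_meas b (j f).stronglyMeasurable).aestronglyMeasurable

lemma coord_ae (f : E) (i : ι) :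
    ∀ᵐ ω ∂μ, (coord b j f : ι × Ω → ℝ) (i, ω) = inner ℝ (b i) ((j f : Ω → H) ω) := by
  have h := AEEqFun.coeFn_mk (μ := mu2 ι μ)
    (fun q : ι × Ω => inner ℝ (b q.1) ((j f : Ω → H) q.2))
    (coord_meas b (j f).stronglyMeasurable).aestronglyMeasurable
  exact (ae_mu2 (p := fun q => (coord b j f : ι × Ω → ℝ) q
    = inner ℝ (b q.1) ((j f : Ω → H) q.2))).mp h i

/-- the coordinate map is linear -/
noncomputable def coordL (j : E →ₗ[ℝ] (Ω →ₘ[μ] H)) : E →ₗ[ℝ] ((ι × Ω) →ₘ[mu2 ι μ] ℝ) where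
  toFun := coord b j
  map_add' f g := by
    refine AEEqFun.ext ?_
    have h0 := AEEqFun.coeFn_add (coord b j f) (coord b j g)
    refine (ae_mu2 (p := fun q => (coord b j (f + g) : ι × Ω → ℝ) q
      = (coord b j f + coord b j g : (ι × Ω) →ₘ[mu2 ι μ] ℝ) q)).mpr fun i => ?_
    have h0' := (ae_mu2 (p := fun q => (coord b j f + coord b j g : (ι × Ω) →ₘ[mu2 ι μ] ℝ) q
      = ((coord b j f : ι × Ω → ℝ) + (coord b j g : ι × Ω → ℝ)) q)).mp h0 i
    have h4 := AEEqFun.coeFn_add (j f) (j g)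
    rw [← map_add] at h4
    filter_upwards [h0', coord_ae b (j := j) f i, coord_ae b (j := j) g i,
      coord_ae b (j := j) (f + g) i, h4] with ω e0 e1 e2 e3 e4
    rw [e0, e3, Pi.add_apply, e1, e2, e4, Pi.add_apply, inner_add_right]
  map_smul' c f := by
    refine AEEqFun.ext ?_
    have h0 := AEEqFun.coeFn_smul c (coord b j f)
    refine (ae_mu2 (p := fun q => (coord b j (c • f) : ι × Ω → ℝ) q
      = ((RingHom.id ℝ) c • coord b j f : (ι × Ω) →ₘ[mu2 ι μ] ℝ) q)).mpr fun i => ?_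
    have h0' := (ae_mu2 (p := fun q => (c • coord b j f : (ι × Ω) →ₘ[mu2 ι μ] ℝ) q
      = (c • (coord b j f : ι × Ω → ℝ)) q)).mp h0 i
    have h4 := AEEqFun.coeFn_smul c (j f)
    rw [← map_smul] at h4
    filter_upwards [h0', coord_ae b (j := j) f i,
      coord_ae b (j := j) (c • f) i, h4] with ω e0 e1 e3 e4
    rw [e3, RingHom.id_apply, e0, Pi.smul_apply, e1, e4, Pi.smul_apply, inner_smul_right,
      smul_eq_mul]

lemma eq_zero_of_coord {x : H} (h : ∀ i, inner ℝ (b i) x = 0) : x = 0 := by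
  have h1 := b.hasSum_inner_mul_inner x x
  have h2 : (fun i => inner ℝ x (b i) * inner ℝ (b i) x) = fun _ => (0 : ℝ) := by
    ext i; rw [h i, mul_zero]
  rw [h2] at h1
  have h3 := h1.unique hasSum_zero
  exact inner_self_eq_zero.mp h3

/-- a vector with dominated coordinates -/
lemma exists_coord (c : ι → ℝ) (x : H) (h : ∀ i, |c i| ≤ |inner ℝ (b i) x|) :
    ∃ y : H, HasSum (fun i => c i • b i) y ∧ (∀ i, inner ℝ (b i) y = c i) ∧ ‖y‖ ≤ ‖x‖ := by
  have sq_sum : ∀ z : H, HasSum (fun i => (inner ℝ (b i) z) ^ 2) (‖z‖ ^ 2) := by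
    intro z
    have hz := b.hasSum_inner_mul_inner z z
    rw [real_inner_self_eq_norm_sq] at hz
    have e : (fun i => inner ℝ z (b i) * inner ℝ (b i) z) = fun i => (inner ℝ (b i) z) ^ 2 := by
      ext i; rw [real_inner_comm, sq]
    rwa [e] at hz
  have hle : ∀ i, c i ^ 2 ≤ (inner ℝ (b i) x) ^ 2 := fun i => sq_le_sq.mpr (h i)
  have hsum : Summable fun i => c i ^ 2 :=
    Summable.of_nonneg_of_le (fun i => sq_nonneg _) hle (sq_sum x).summable
  have hmem : Memℓp c 2 := by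
    refine memℓp_gen ?_
    simpa using hsum
  set y : H := b.repr.symm ⟨c, hmem⟩ with hy
  have hyi : ∀ i, inner ℝ (b i) y = c i := by
    intro i
    rw [← b.repr_apply_apply, hy, LinearIsometryEquiv.apply_symm_apply]
  refine ⟨y, b.hasSum_repr_symm ⟨c, hmem⟩, hyi, ?_⟩
  have h1 := sq_sum y
  simp only [hyi] at h1
  have h2 : ‖y‖ ^ 2 ≤ ‖x‖ ^ 2 := hasSum_le hle h1 (sq_sum x)
  exact (sq_le_sq₀ (norm_nonneg _) (norm_nonneg _)).mp h2

/-- the coordinates form a real function space -/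
lemma isFunctionSpace_coord (hj : IsVectorFunctionSpace μ j) :
    IsFunctionSpace (mu2 ι μ) (coordL b j) := by
  constructor
  · rw [injective_iff_map_eq_zero]
    intro f hf
    have h1 : ∀ i, ∀ᵐ ω ∂μ, inner ℝ (b i) ((j f : Ω → H) ω) = 0 := by
      intro i
      have h2 : (coord b j f : (ι × Ω) →ₘ[mu2 ι μ] ℝ) = 0 := hf
      have h3 := AEEqFun.coeFn_zero (μ := mu2 ι μ) (α := ι × Ω) (β := ℝ)
      have h4 := (ae_mu2 (p := fun q => ((0 : (ι × Ω) →ₘ[mu2 ι μ] ℝ) : ι × Ω → ℝ) q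
        = (0 : ι × Ω → ℝ) q)).mp h3 i
      filter_upwards [coord_ae b (j := j) f i, h4] with ω e1 e2
      rw [← e1, h2, e2]; rfl
    have h2 : j f = 0 := by
      refine AEEqFun.ext ?_
      filter_upwards [ae_all_iff.mpr h1, AEEqFun.coeFn_zero (μ := μ) (α := Ω) (β := H)] with ω e1 e2
      rw [e2]
      exact eq_zero_of_coord b e1
    exact hj.inj (by rw [h2, map_zero])
  · intro f g hg
    have hg' := fun i => (ae_mu2 (p := fun q => |(g : ι × Ω → ℝ) q|
      ≤ |(coordL b j f : (ι × Ω) →ₘ[mu2 ι μ] ℝ) q|)).mp hg i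
    have hg2 : ∀ᵐ ω ∂μ, ∀ i, |(g : ι × Ω → ℝ) (i, ω)| ≤ |inner ℝ (b i) ((j f : Ω → H) ω)| := by
      rw [ae_all_iff]
      intro i
      filter_upwards [hg' i, coord_ae b (j := j) f i] with ω e1 e2
      rw [← e2]; exact e1
    set G : Ω → H := fun ω => ∑' i, (g : ι × Ω → ℝ) (i, ω) • b i with hG
    have hprop : ∀ᵐ ω ∂μ, HasSum (fun i => (g : ι × Ω → ℝ) (i, ω) • b i) (G ω) ∧
        (∀ i, inner ℝ (b i) (G ω) = (g : ι × Ω → ℝ) (i, ω)) ∧ ‖G ω‖ ≤ ‖(j f : Ω → H) ω‖ := by
      filter_upwards [hg2] with ω hω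
      obtain ⟨y, hy1, hy2, hy3⟩ := exists_coord b (fun i => (g : ι × Ω → ℝ) (i, ω)) _ hω
      have : G ω = y := hy1.tsum_eq
      rw [this]
      exact ⟨hy1, hy2, hy3⟩
    have hgm : ∀ i, StronglyMeasurable fun ω => (g : ι × Ω → ℝ) (i, ω) := fun i =>
      g.stronglyMeasurable.comp_measurable measurable_prodMk_left
    have hGm : AEStronglyMeasurable G μ := by
      refine aestronglyMeasurable_of_tendsto_ae (u := (atTop : Filter (Finset ι)))
        (f := fun s ω => ∑ i ∈ s, (g : ι × Ω → ℝ) (i, ω) • b i) (fun s => ?_) ?_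
      · refine StronglyMeasurable.aestronglyMeasurable ?_
        exact Finset.stronglyMeasurable_fun_sum s fun i _ => (hgm i).smul_const _
      · filter_upwards [hprop] with ω hω
        exact hω.1
    obtain ⟨h, h1, h2⟩ := hj.solid f (AEEqFun.mk G hGm) (by
      filter_upwards [AEEqFun.coeFn_mk G hGm, hprop] with ω e1 e2
      rw [e1]; exact e2.2.2)
    refine ⟨h, ?_, h2⟩
    refine AEEqFun.ext ?_
    refine (ae_mu2 (p := fun q => (coordL b j h : (ι × Ω) →ₘ[mu2 ι μ] ℝ) q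
      = (g : ι × Ω → ℝ) q)).mpr fun i => ?_
    filter_upwards [coord_ae b (j := j) h i, AEEqFun.coeFn_mk G hGm, hprop] with ω e1 e2 e3
    change (coord b j h : ι × Ω → ℝ) (i, ω) = _
    rw [e1, h1, e2, e3.2.1 i]

end

/-- LEAF H1: coordinates in an orthonormal basis -/
theorem IsVectorFunctionSpace.exists_real (hj : IsVectorFunctionSpace μ j) [CompleteSpace H]
    [TopologicalSpace.SeparableSpace H] :
    ∃ (Ω' : Type (max v w)) (_ : MeasurableSpace Ω') (μ' : Measure Ω')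
      (j' : E →ₗ[ℝ] (Ω' →ₘ[μ'] ℝ)), IsFunctionSpace μ' j' := by
  obtain ⟨W, b, hb⟩ := exists_hilbertBasis ℝ H
  have hdist : Pairwise fun i k : W => (1 : ℝ) ≤ dist i k := by
    intro i k hik
    have ho := b.orthonormal
    have h1 : ‖b i - b k‖ ^ 2 = 2 := by
      rw [@norm_sub_sq_real, ho.1 i, ho.1 k, ho.2 hik]; norm_num
    have h2 : dist i k = ‖b i - b k‖ := by
      rw [hb]; exact dist_eq_norm _ _
    rw [h2]
    nlinarith [norm_nonneg (b i - b k)]
  have hdisc : DiscreteTopology W := DiscreteTopology.of_forall_le_dist one_pos hdist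
  have hcount : Countable W := TopologicalSpace.separableSpace_iff_countable.mp inferInstance
  let _ : MeasurableSpace W := ⊤
  have : MeasurableSingletonClass W := ⟨fun _ => trivial⟩
  exact ⟨W × Ω, inferInstance, mu2 W μ, coordL b j, isFunctionSpace_coord b hj⟩

end Pool.Agent.Helper60.RR
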