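import Pool.Agent.Helper60.RR.Final
import Pool.Agent.Helper60.RR.H1
import Pool.Agent.Helper83.RR.H2
import Pool.Agent.Helper89.RR.H0

set_option autoImplicit false
set_option linter.unusedSectionVars false

open MeasureTheory Filter Topology

namespace Pool.Agent.Helper60.RR

universe u v w

variable {Ω : Type v} [MeasurableSpace Ω] {μ : Measure Ω} {H : Type w} [NormedAddCommGroup H]
  [InnerProductSpace ℝ H] {E : Type u} [NormedAddCommGroup E] [NormedSpace ℝ E]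
  {j : E →ₗ[ℝ] (Ω →ₘ[μ] H)}

/-- vector valued function spaces with one skew operator -/
theorem parallelogram_of_skew [CompleteSpace E] [TopologicalSpace.SeparableSpace E]
    [CompleteSpace H] (hj : IsVectorFunctionSpace μ j)
    (htr : ∀ y z : E, ‖y‖ = 1 → ‖z‖ = 1 → ∃ T : E ≃ₗᵢ[ℝ] E, T y = z)
    (hD : ∃ D : E →L[ℝ] E, Act.Skew D ∧ D ≠ 0) (f g : E) :
    ‖f + g‖ ^ 2 + ‖f - g‖ ^ 2 = 2 * (‖f‖ ^ 2 + ‖g‖ ^ 2) := by
  obtain ⟨D, hD1, hD2⟩ := hD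
  obtain ⟨v, hv⟩ : ∃ v, D v ≠ 0 := by
    by_contra hcon
    push Not at hcon
    exact hD2 (ContinuousLinearMap.ext hcon)
  have hv0 : v ≠ 0 := by rintro rfl; exact hv (map_zero D)
  have hsep : TopologicalSpace.SeparableSpace H := hj.separable hv0
  obtain ⟨Ω', _, μ', j', hj'⟩ := hj.exists_real
  obtain ⟨R, x, hx⟩ := exists_act hj'
  exact Act.parallelogram R hx htr ⟨D, hD1, hD2⟩ f g

/-- two orthonormal vectors -/
lemma exists_orthonormal_pair (h : ¬ ∃ e : H, ∀ h : H, ∃ c : ℝ, h = c • e) :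
    ∃ e₁ e₂ : H, ‖e₁‖ = 1 ∧ ‖e₂‖ = 1 ∧ inner ℝ e₁ e₂ = 0 := by
  push Not at h
  obtain ⟨a, ha⟩ := h 0
  have ha0 : a ≠ 0 := by simpa using ha 0
  have hna : 0 < ‖a‖ := norm_pos_iff.mpr ha0
  obtain ⟨b, hb⟩ := h a
  set c : H := b - ((inner ℝ a b) / ‖a‖ ^ 2 : ℝ) • a with hc
  have hc0 : c ≠ 0 := sub_ne_zero.mpr (hb _)
  have hnc : 0 < ‖c‖ := norm_pos_iff.mpr hc0
  have hac : inner ℝ a c = 0 := by
    rw [hc, inner_sub_right, inner_smul_right, real_inner_self_eq_norm_sq]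
    field_simp
    ring
  refine ⟨‖a‖⁻¹ • a, ‖c‖⁻¹ • c, ?_, ?_, ?_⟩
  · rw [norm_smul, norm_inv, norm_norm, inv_mul_cancel₀ hna.ne']
  · rw [norm_smul, norm_inv, norm_norm, inv_mul_cancel₀ hnc.ne']
  · rw [inner_smul_left, inner_smul_right, hac]; simp

/-- the main theorem of the project -/
theorem main_vector [CompleteSpace E] [TopologicalSpace.SeparableSpace E]
    [CompleteSpace H] (hj : IsVectorFunctionSpace μ j)
    (htr : ∀ y z : E, ‖y‖ = 1 → ‖z‖ = 1 → ∃ T : E ≃ₗᵢ[ℝ] E, T y = z)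
    (hn : ¬ ∀ f g : E, ‖f + g‖ ^ 2 + ‖f - g‖ ^ 2 = 2 * (‖f‖ ^ 2 + ‖g‖ ^ 2)) :
    (∃ e : H, ∀ h : H, ∃ c : ℝ, h = c • e) ∧
      ∀ D : E →L[ℝ] E, (∀ (t : ℝ) (x : E), ‖NormedSpace.exp (t • D) x‖ = ‖x‖) → D = 0 := by
  have key : ∀ D : E →L[ℝ] E, Act.Skew D → D = 0 := by
    intro D hD
    by_contra hD0
    exact hn fun f g => parallelogram_of_skew hj htr ⟨D, hD, hD0⟩ f g
  refine ⟨?_, fun D hD => key D (Act.skew_of_exp hD)⟩
  by_contra hdim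
  obtain ⟨e₁, e₂, h1, h2, h12⟩ := exists_orthonormal_pair hdim
  push Not at hn
  obtain ⟨f, g, hfg⟩ := hn
  have hne : ∃ v : E, v ≠ 0 := by
    by_contra hall
    push Not at hall
    apply hfg
    rw [hall f, hall g]; simp
  obtain ⟨v, hv⟩ := hne
  obtain ⟨D, hD, hD0⟩ := hj.exists_skew hv h1 h2 h12
  exact hD0 (key D hD)

end Pool.Agent.Helper60.RR
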