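import Pool.Agent.Helper60.RR.Base

set_option autoImplicit false
set_option linter.unusedSectionVars false

open MeasureTheory Filter Topology
open scoped ComplexConjugate ENNReal

namespace Pool.Agent.Helper60.RR
namespace Act

variable {Ω : Type*} [MeasurableSpace Ω] {E : Type*} [NormedAddCommGroup E] [NormedSpace ℝ E]
variable (R : Act Ω E)

lemma psi_P_nonneg {f : E} {ψ : E →L[ℝ] ℝ} (h : Norming f ψ) {A : Set Ω} (hA : MeasurableSet A) :
    0 ≤ ψ (R.P A f) := by
  have h1 : ψ (R.P A f) + ψ (R.P Aᶜ f) = ‖f‖ := by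
    rw [← map_add, R.P_compl hA, h.2]
  have hb : BM (Aᶜ.indicator (1 : Ω → ℝ) - A.indicator 1) := (bmInd hA.compl).sub (bmInd hA)
  have h2 : ‖R.M (Aᶜ.indicator (1 : Ω → ℝ) - A.indicator 1) f‖ ≤ 1 * ‖f‖ := by
    refine R.norm_le hb (fun ω => ?_) zero_le_one f
    by_cases hω : ω ∈ A <;> simp [hω]
  have h3 : R.M (Aᶜ.indicator (1 : Ω → ℝ) - A.indicator 1) f = R.P Aᶜ f - R.P A f := by
    have : Aᶜ.indicator (1 : Ω → ℝ) - A.indicator 1
        = Aᶜ.indicator (1 : Ω → ℝ) + (-1 : ℝ) • A.indicator 1 := by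
      ext ω; simp [sub_eq_add_neg]
    rw [this, R.add (bmInd hA.compl) ((bmInd hA).smul _), R.smul _ (bmInd hA)]
    simp [P, sub_eq_add_neg]
  have h4 := h.le (R.M (Aᶜ.indicator (1 : Ω → ℝ) - A.indicator 1) f)
  rw [h3, map_sub] at h4
  rw [h3] at h2
  linarith

lemma hasSum_P {A : ℕ → Set Ω} (hA : ∀ n, MeasurableSet (A n))
    (hd : Pairwise (Function.onFun Disjoint A)) (f : E) (ψ : E →L[ℝ] ℝ) :
    Tendsto (fun n => ∑ i ∈ Finset.range n, ψ (R.P (A i) f)) atTop (𝓝 (ψ (R.P (⋃ i, A i) f))) := by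
  have h1 : ∀ n, ∑ i ∈ Finset.range n, ψ (R.P (A i) f) = ψ (R.P (⋃ i ∈ Finset.range n, A i) f) := by
    intro n
    induction n with
    | zero => simp [R.P_empty]
    | succ n ih =>
      have hm : MeasurableSet (⋃ i ∈ Finset.range n, A i) :=
        Finset.measurableSet_biUnion _ fun i _ => hA i
      have hdis : Disjoint (A n) (⋃ i ∈ Finset.range n, A i) := by
        rw [Set.disjoint_iUnion₂_right]
        intro i hi
        exact hd (by simpa using (Finset.mem_range.mp hi).ne')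
      rw [Finset.sum_range_succ, ih, Finset.range_add_one, Finset.set_biUnion_insert,
        R.P_union (hA n) hm hdis, map_add, add_comm]
  simp_rw [h1]
  refine (ψ.continuous.tendsto _).comp ?_
  refine R.tendsto_mono (fun n => ⋃ i ∈ Finset.range n, A i)
    (fun n => Finset.measurableSet_biUnion _ fun i _ => hA i) ?_ (MeasurableSet.iUnion hA) ?_ f
  · intro i j hij
    exact Set.biUnion_subset_biUnion_left (fun x hx => Finset.mem_coe.mpr
      (Finset.mem_range.mpr ((Finset.mem_range.mp (Finset.mem_coe.mp hx)).trans_le hij)))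
  · ext ω
    simp only [Set.mem_iUnion, Finset.mem_range]
    constructor
    · rintro ⟨n, i, -, h⟩; exact ⟨i, h⟩
    · rintro ⟨i, h⟩; exact ⟨i + 1, i, Nat.lt_succ_self i, h⟩

/-- the measure attached to a positive pair -/
lemma exists_measure_sets {f : E} {ψ : E →L[ℝ] ℝ}
    (h : ∀ A, MeasurableSet A → 0 ≤ ψ (R.P A f)) :
    ∃ m : Measure Ω, ∀ A, MeasurableSet A → m A = ENNReal.ofReal (ψ (R.P A f)) := by
  refine ⟨Measure.ofMeasurable (fun A _ => ENNReal.ofReal (ψ (R.P A f))) ?_ ?_, ?_⟩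
  · simp [R.P_empty]
  · intro A hA hd
    have h1 := R.hasSum_P hA hd f ψ
    have hnn : ∀ i, 0 ≤ ψ (R.P (A i) f) := fun i => h _ (hA i)
    have h2 : HasSum (fun i => ψ (R.P (A i) f)) (ψ (R.P (⋃ i, A i) f)) :=
      (hasSum_iff_tendsto_nat_of_nonneg hnn _).mpr h1
    rw [← h2.tsum_eq]
    exact ENNReal.ofReal_tsum_of_nonneg hnn h2.summable
  · intro A hA
    exact Measure.ofMeasurable_apply A hA

/-- floor approximation of a bounded measurable real function by a simple function -/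
lemma exists_simple {r : Ω → ℝ} (hr : Measurable r) {C : ℝ} (hC : ∀ ω, |r ω| ≤ C) {ε : ℝ}
    (hε : 0 < ε) : ∃ s : SimpleFunc Ω ℝ, ∀ ω, |r ω - s ω| ≤ ε := by
  have hmeas : Measurable (fun ω => (⌊r ω / ε⌋ : ℝ) * ε) := by
    have h1 : Measurable (fun ω => ⌊r ω / ε⌋) := Int.measurable_floor.comp (hr.div_const ε)
    exact ((measurable_from_top (f := fun n : ℤ => (n : ℝ))).comp h1).mul_const ε
  refine ⟨⟨fun ω => (⌊r ω / ε⌋ : ℝ) * ε, fun x => hmeas (measurableSet_singleton x), ?_⟩, ?_⟩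
  · have hsub : Set.range (fun ω => (⌊r ω / ε⌋ : ℝ) * ε) ⊆
        (fun n : ℤ => (n : ℝ) * ε) '' (Set.Icc ⌊-C / ε⌋ ⌊C / ε⌋) := by
      rintro _ ⟨ω, rfl⟩
      have h2 := abs_le.mp (hC ω)
      refine ⟨⌊r ω / ε⌋, ⟨?_, ?_⟩, rfl⟩
      · exact Int.floor_le_floor (by gcongr; exact h2.1)
      · exact Int.floor_le_floor (by gcongr; exact h2.2)
    exact ((Set.finite_Icc _ _).image _).subset hsub
  · intro ω
    change |r ω - (⌊r ω / ε⌋ : ℝ) * ε| ≤ ε
    have h1 := Int.floor_le (r ω / ε)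
    have h2 := Int.lt_floor_add_one (r ω / ε)
    have h3 : r ω = r ω / ε * ε := by field_simp
    rw [abs_le]
    constructor
    · nlinarith
    · nlinarith

lemma bm_simple (s : SimpleFunc Ω ℝ) : BM (fun ω => s ω) := by
  obtain ⟨C, hC⟩ := s.exists_forall_norm_le
  exact ⟨s.measurable, C, hC⟩

/-- a continuous additive functional on the bounded functions vanishes if it does so on
indicators -/
lemma eq_zero_of_ind (F : (Ω → ℝ) → ℝ) (K : ℝ)
    (hadd : ∀ a b, BM a → BM b → F (a + b) = F a + F b)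
    (hsmul : ∀ (c : ℝ) a, BM a → F (c • a) = c * F a)
    (hbd : ∀ a C, BM a → 0 ≤ C → (∀ ω, ‖a ω‖ ≤ C) → |F a| ≤ K * C)
    (hind : ∀ A, MeasurableSet A → F (A.indicator 1) = 0) {a : Ω → ℝ} (ha : BM a) : F a = 0 := by
  have hsimple : ∀ s : SimpleFunc Ω ℝ, F (fun ω => s ω) = 0 := by
    intro s
    induction s using SimpleFunc.induction with
    | @const c A hA =>
      have h1 : (fun ω => ((SimpleFunc.piecewise A hA (SimpleFunc.const Ω c)
          (SimpleFunc.const Ω 0)) ω)) = c • A.indicator (1 : Ω → ℝ) := by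
        ext ω
        by_cases hω : ω ∈ A <;> simp [SimpleFunc.piecewise_apply, hω]
      rw [h1, hsmul _ _ (bmInd hA), hind A hA, mul_zero]
    | @add g1 g2 hdis ih1 ih2 =>
      have h1 : (fun ω => ((g1 + g2 : SimpleFunc Ω ℝ) ω))
          = (fun ω => g1 ω) + (fun ω => g2 ω) := by
        ext ω; simp
      rw [h1, hadd _ _ (bm_simple g1) (bm_simple g2), ih1, ih2, add_zero]
  obtain ⟨ha1, C, hC⟩ := ha
  have key : ∀ ε : ℝ, 0 < ε → |F a| ≤ K * ε := by
    intro ε hε
    obtain ⟨s, hs⟩ := exists_simple ha1 hC hε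
    have hb : BM (fun ω => a ω - s ω) := ⟨ha1.sub s.measurable, ε, hs⟩
    have hsum : a = (fun ω => a ω - s ω) + (fun ω => s ω) := by
      ext ω; simp
    rw [hsum, hadd _ _ hb (bm_simple s), hsimple s, add_zero]
    exact hbd _ _ hb hε.le hs
  by_contra hne
  have hpos : 0 < |F a| := abs_pos.mpr hne
  have hK : 0 ≤ K := by
    have := (abs_nonneg _).trans (key 1 one_pos)
    linarith
  have h7 := key (|F a| / (2 * (K + 1))) (by positivity)
  have h8 : K * (|F a| / (2 * (K + 1))) < |F a| := by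
    rw [mul_div_assoc', div_lt_iff₀ (by positivity)]
    nlinarith
  linarith

/-- integral formula -/
theorem exists_measure {f : E} {ψ : E →L[ℝ] ℝ}
    (h : ∀ A, MeasurableSet A → 0 ≤ ψ (R.P A f)) :
    ∃ m : Measure Ω, IsFiniteMeasure m ∧ (∀ A, MeasurableSet A → m.real A = ψ (R.P A f)) ∧
      ∀ c : Ω → ℝ, BM c → ψ (R.M c f) = ∫ ω, c ω ∂m := by
  obtain ⟨m, hm⟩ := R.exists_measure_sets h
  have hfin : IsFiniteMeasure m := ⟨by rw [hm _ MeasurableSet.univ]; exact ENNReal.ofReal_lt_top⟩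
  have hreal : ∀ A, MeasurableSet A → m.real A = ψ (R.P A f) := by
    intro A hA
    rw [Measure.real, hm A hA, ENNReal.toReal_ofReal (h A hA)]
  refine ⟨m, hfin, hreal, fun c hc => ?_⟩
  have hint : ∀ a : Ω → ℝ, BM a → Integrable a m := by
    rintro a ⟨ha, C, hC⟩
    exact Integrable.of_bound ha.aestronglyMeasurable C (Eventually.of_forall hC)
  have := eq_zero_of_ind (fun a => ψ (R.M a f) - ∫ ω, a ω ∂m) (‖ψ‖ * ‖f‖ + m.real Set.univ)
    (fun a b ha hb => by
      rw [R.add ha hb, integral_add' (hint a ha) (hint b hb), _root_.add_apply, map_add]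
      ring)
    (fun c a ha => by
      rw [R.smul c ha]
      simp only [Pi.smul_apply, integral_smul]
      rw [_root_.smul_apply, map_smul, smul_eq_mul, smul_eq_mul]
      ring)
    (fun a C ha hC0 hC => by
      have h1 : |ψ (R.M a f)| ≤ ‖ψ‖ * (C * ‖f‖) :=
        (ψ.le_opNorm _).trans (mul_le_mul_of_nonneg_left (R.norm_le ha hC hC0 f) (norm_nonneg _))
      have h2 : |∫ ω, a ω ∂m| ≤ C * m.real Set.univ := by
        have := norm_integral_le_of_norm_le_const (μ := m) (f := a) (C := C)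
          (Eventually.of_forall hC)
        simpa using this
      have h3 := abs_sub (ψ (R.M a f)) (∫ ω, a ω ∂m)
      calc |ψ (R.M a f) - ∫ ω, a ω ∂m| ≤ |ψ (R.M a f)| + |∫ ω, a ω ∂m| := h3
        _ ≤ ‖ψ‖ * (C * ‖f‖) + C * m.real Set.univ := add_le_add h1 h2
        _ = (‖ψ‖ * ‖f‖ + m.real Set.univ) * C := by ring)
    (fun A hA => by
      rw [integral_indicator_one hA, hreal A hA, P, sub_self])
    hc
  linarith

end Act
end Pool.Agent.Helper60.RR
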