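import Pool.Agent.Helper60.RR.Dual

set_option autoImplicit false
set_option linter.unusedSectionVars false

open MeasureTheory Filter Topology
open scoped ENNReal

namespace Pool.Agent.Helper60.RR
namespace Act

variable {Ω : Type*} [MeasurableSpace Ω] {E : Type*} [NormedAddCommGroup E] [NormedSpace ℝ E]
variable {R : Act Ω E}

/-- conjugation of a skew operator by an isometry -/
lemma Skew.conj_iso {D : E →L[ℝ] E} (hD : Skew D) (T : E ≃ₗᵢ[ℝ] E) :
    Skew ((T.symm.toContinuousLinearEquiv : E →L[ℝ] E).comp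
      (D.comp (T.toContinuousLinearEquiv : E →L[ℝ] E))) :=
  hD.conj _ _ (fun f => (T.norm_map f).le) (fun f => (T.symm.norm_map f).le)
    (fun f => T.symm_apply_apply f)

/-- all non-zero vectors are moved by some skew operator -/
lemma exists_skew_ne (htr : ∀ y z : E, ‖y‖ = 1 → ‖z‖ = 1 → ∃ T : E ≃ₗᵢ[ℝ] E, T y = z)
    (hD : ∃ D : E →L[ℝ] E, Skew D ∧ D ≠ 0) (y : E) (hy : y ≠ 0) :
    ∃ D : E →L[ℝ] E, Skew D ∧ D y ≠ 0 := by
  obtain ⟨D, hD1, hD2⟩ := hD
  obtain ⟨v, hv⟩ : ∃ v, D v ≠ 0 := by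
    by_contra hcon
    push Not at hcon
    exact hD2 (ContinuousLinearMap.ext hcon)
  have hv0 : v ≠ 0 := by rintro rfl; exact hv (map_zero D)
  have hny : 0 < ‖y‖ := norm_pos_iff.mpr hy
  have hnv : 0 < ‖v‖ := norm_pos_iff.mpr hv0
  obtain ⟨T, hT⟩ := htr (‖y‖⁻¹ • y) (‖v‖⁻¹ • v)
    (by rw [norm_smul, norm_inv, norm_norm, inv_mul_cancel₀ hny.ne'])
    (by rw [norm_smul, norm_inv, norm_norm, inv_mul_cancel₀ hnv.ne'])
  refine ⟨_, hD1.conj_iso T, fun h0 => hv ?_⟩
  have h1 : T.symm (D (T y)) = 0 := h0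
  have h2 : D (T y) = 0 := by
    have := congrArg T h1
    rwa [T.apply_symm_apply, map_zero] at this
  have h3 : T y = (‖y‖ * ‖v‖⁻¹) • v := by
    rw [map_smul] at hT
    have := congrArg (fun u => ‖y‖ • u) hT
    simp only [smul_smul] at this
    rwa [mul_inv_cancel₀ hny.ne', one_smul] at this
  rw [h3, map_smul, smul_eq_zero] at h2
  exact h2.resolve_left (by positivity)

/-- invariant sets are trivial -/
theorem trivial_of_cyclic {x : E}
    (hcyc : ∀ (V : Submodule ℝ E), IsClosed (V : Set E) →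
      (∀ D : E →L[ℝ] E, Skew D → ∀ v ∈ V, D v ∈ V) → x ∈ V → ∀ f, f ∈ V)
    (hx1 : ‖x‖ = 1) (hunit : R.IsUnit x)
    (htr : ∀ y z : E, ‖y‖ = 1 → ‖z‖ = 1 → ∃ T : E ≃ₗᵢ[ℝ] E, T y = z) {B : Set Ω} (hB : R.Inv B) :
    (∀ f, R.P B f = 0) ∨ (∀ f, R.P B f = f) := by
  by_cases h0 : R.P B x = 0
  · exact Or.inl (hunit.P_eq_zero hB.1 h0)
  right
  have hpos : 0 < ‖R.P B x‖ := norm_pos_iff.mpr h0
  obtain ⟨T, hT⟩ := htr (‖R.P B x‖⁻¹ • R.P B x) x (by
    rw [norm_smul, norm_inv, norm_norm, inv_mul_cancel₀ hpos.ne']) hx1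
  -- the closed subspace T (P_B E) = {f | P_B (T⁻¹ f) = T⁻¹ f}
  set L : E →L[ℝ] E := (R.P B).comp (T.symm.toContinuousLinearEquiv : E →L[ℝ] E)
    - (T.symm.toContinuousLinearEquiv : E →L[ℝ] E) with hL
  have hLf : ∀ f, L f = R.P B (T.symm f) - T.symm f := fun f => rfl
  have hmem : ∀ f, f ∈ LinearMap.ker (L : E →ₗ[ℝ] E) ↔ R.P B (T.symm f) = T.symm f := by
    intro f
    rw [LinearMap.mem_ker]
    change L f = 0 ↔ _
    rw [hLf, sub_eq_zero]
  have hall := hcyc (LinearMap.ker (L : E →ₗ[ℝ] E)) (by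
      have : ((LinearMap.ker (L : E →ₗ[ℝ] E) : Submodule ℝ E) : Set E) = L ⁻¹' {0} := by
        ext f; simp
      rw [this]
      exact isClosed_singleton.preimage L.continuous) (by
      intro D hD v hv
      rw [hmem] at hv ⊢
      have h1 := hB.2 _ (hD.conj_iso T) (T.symm v)
      have h2 : ∀ g, ((T.symm.toContinuousLinearEquiv : E →L[ℝ] E).comp
        (D.comp (T.toContinuousLinearEquiv : E →L[ℝ] E))) g = T.symm (D (T g)) := fun g => rfl
      rw [h2, h2, T.apply_symm_apply, hv, T.apply_symm_apply] at h1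
      exact h1) (by
      rw [hmem, ← hT, T.symm_apply_apply, map_smul, R.P_P hB.1 hB.1, Set.inter_self])
  intro f
  have h1 := (hmem (T f)).mp (hall (T f))
  rwa [T.symm_apply_apply] at h1

/-- from equality of norms to the parallelogram law, when the invariant sets are trivial -/
theorem parallelogram_of_eqnorm {x : E} {χ : E →L[ℝ] ℝ} {m : Measure Ω} (h : R.Pack x χ m)
    (htriv : ∀ B, R.Inv B → (∀ f, R.P B f = 0) ∨ (∀ f, R.P B f = f))
    (heqn : ∀ f g : Ω → ℝ, BM f → BM g →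
      (∀ B, R.Inv B → ∫ ω in B, f ω ^ 2 ∂m = ∫ ω in B, g ω ^ 2 ∂m) → ‖R.M f x‖ = ‖R.M g x‖)
    (f g : E) : ‖f + g‖ ^ 2 + ‖f - g‖ ^ 2 = 2 * (‖f‖ ^ 2 + ‖g‖ ^ 2) := by
  have hfin := h.fin
  have hint : ∀ a : Ω → ℝ, BM a → Integrable a m := by
    rintro a ⟨ha, C, hC⟩
    exact Integrable.of_bound ha.aestronglyMeasurable C (Eventually.of_forall hC)
  have hsq : ∀ a : Ω → ℝ, BM a → Integrable (fun ω => a ω ^ 2) m := by
    intro a ha
    have : (fun ω => a ω ^ 2) = a * a := by ext ω; rw [Pi.mul_apply, sq]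
    rw [this]; exact hint _ (ha.mul ha)
  -- the norm of a bounded multiple
  have hm : m Set.univ = 0 ∨ m Set.univ ≠ 0 := em _
  rcases hm with hm | hm
  · -- E = 0
    have hz : ∀ v : E, v = 0 := fun v => by
      rw [← R.P_univ v]
      exact h.unit.P_eq_zero MeasurableSet.univ (h.faith _ MeasurableSet.univ hm) v
    rw [hz f, hz g]; simp
  set c : ℝ := (m.real Set.univ) with hc
  have hcpos : 0 < c := by
    rw [hc, Measure.real]
    exact ENNReal.toReal_pos hm (measure_ne_top m _)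
  have hconst : ∀ t : ℝ, R.M (fun _ => t) x = t • x := by
    intro t
    have : (fun _ : Ω => t) = t • (1 : Ω → ℝ) := by ext ω; simp
    rw [this, R.smul t BM.one, _root_.smul_apply, R.one]
  have key : ∀ a : Ω → ℝ, BM a → ‖R.M a x‖ ^ 2 = (‖x‖ ^ 2 / c) * ∫ ω, a ω ^ 2 ∂m := by
    intro a ha
    set I := ∫ ω, a ω ^ 2 ∂m with hI
    have hI0 : 0 ≤ I := integral_nonneg fun ω => sq_nonneg _
    have h1 := heqn a (fun _ => √(I / c)) ha (BM.const _) (by
      intro B hB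
      have hs : (fun _ : Ω => √(I / c) ^ 2) = fun _ => I / c := by
        ext ω; rw [Real.sq_sqrt (by positivity)]
      rcases htriv B hB with h0 | h1
      · have h2 : m.real B = 0 := by rw [h.real _ hB.1, h0, map_zero]
        have h3 : m B = 0 := (measureReal_eq_zero_iff).mp h2
        rw [setIntegral_measure_zero _ h3, setIntegral_measure_zero _ h3]
      · have h2 : m.real Bᶜ = 0 := by
          rw [h.real _ hB.1.compl, R.P_compl' hB.1, h1, sub_self, map_zero]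
        have h3 : m Bᶜ = 0 := (measureReal_eq_zero_iff).mp h2
        have h4 : B =ᵐ[m] (Set.univ : Set Ω) := by
          rw [ae_eq_univ]; exact h3
        rw [setIntegral_congr_set h4, setIntegral_congr_set h4, setIntegral_univ,
          setIntegral_univ, ← hI]
        simp only [hs, integral_const, smul_eq_mul]
        rw [← hc]
        field_simp)
    rw [h1, hconst, norm_smul, Real.norm_eq_abs, mul_pow, sq_abs,
      Real.sq_sqrt (by positivity)]
    ring
  have base : ∀ a b : Ω → ℝ, BM a → BM b → ‖R.M a x + R.M b x‖ ^ 2 + ‖R.M a x - R.M b x‖ ^ 2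
      = 2 * (‖R.M a x‖ ^ 2 + ‖R.M b x‖ ^ 2) := by
    intro a b ha hb
    have e1 : R.M a x + R.M b x = R.M (a + b) x := by rw [R.add ha hb]; rfl
    have e2 : R.M a x - R.M b x = R.M (a + (-1 : ℝ) • b) x := by
      rw [R.add ha (hb.smul _), R.smul _ hb, _root_.add_apply, _root_.smul_apply, neg_one_smul,
        sub_eq_add_neg]
    have hb' : BM (a + (-1 : ℝ) • b) := ha.add (hb.smul _)
    rw [e1, e2, key _ (ha.add hb), key _ hb', key _ ha, key _ hb]
    have e3 : ∫ ω, (a + b) ω ^ 2 ∂m + ∫ ω, (a + (-1 : ℝ) • b) ω ^ 2 ∂m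
        = 2 * (∫ ω, a ω ^ 2 ∂m + ∫ ω, b ω ^ 2 ∂m) := by
      rw [← integral_add (hsq _ (ha.add hb)) (hsq _ hb'), ← integral_add (hsq _ ha) (hsq _ hb),
        ← integral_const_mul]
      refine integral_congr_ae (Eventually.of_forall fun ω => ?_)
      simp only [Pi.add_apply, Pi.smul_apply, smul_eq_mul]
      ring
    rw [← mul_add, e3]
    ring
  -- density
  have step1 : ∀ a : Ω → ℝ, BM a → ∀ v : E, ‖R.M a x + v‖ ^ 2 + ‖R.M a x - v‖ ^ 2
      = 2 * (‖R.M a x‖ ^ 2 + ‖v‖ ^ 2) := by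
    intro a ha v
    refine h.unit.ext (S := fun v => ‖R.M a x + v‖ ^ 2 + ‖R.M a x - v‖ ^ 2)
      (T := fun v => 2 * (‖R.M a x‖ ^ 2 + ‖v‖ ^ 2)) (by fun_prop) (by fun_prop) ?_ v
    intro b hb
    exact base a b ha hb
  refine h.unit.ext (S := fun u => ‖u + g‖ ^ 2 + ‖u - g‖ ^ 2)
    (T := fun u => 2 * (‖u‖ ^ 2 + ‖g‖ ^ 2)) (by fun_prop) (by fun_prop) ?_ f
  intro a ha
  exact step1 a ha g

end Act
end Pool.Agent.Helper60.RR
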