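import Mathlib

set_option autoImplicit false
set_option linter.unusedSectionVars false

open MeasureTheory Filter Topology

namespace Pool.Agent.Helper60.RR

universe u v w

/-- `E`, embedded by `j` in the (classes of) measurable `H`-valued functions on the measure space
`(Ω, μ)`, is a function space with a solid norm: `j` is injective, and whenever `f ∈ E` and `g` is
measurable with `|g| ≤ |f|` almost everywhere then `g ∈ E` and `‖g‖ ≤ ‖f‖`. -/
structure IsVectorFunctionSpace {Ω : Type v} [MeasurableSpace Ω] (μ : Measure Ω)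
    {H : Type w} [NormedAddCommGroup H] [InnerProductSpace ℝ H] {E : Type u}
    [NormedAddCommGroup E] [NormedSpace ℝ E] (j : E →ₗ[ℝ] (Ω →ₘ[μ] H)) : Prop where
  inj : Function.Injective j
  solid : ∀ (f : E) (g : Ω →ₘ[μ] H), (∀ᵐ ω ∂μ, ‖g ω‖ ≤ ‖j f ω‖) →
    ∃ h : E, j h = g ∧ ‖h‖ ≤ ‖f‖

end Pool.Agent.Helper60.RR
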